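import Pool.Agent.ASD.Stmts7
import Pool.Agent.Helper43_ASO.CMG

/-!
# Squad ASD, row CBG, part 1: the comparison group with exact subgroups
-/

open scoped BigOperators

noncomputable section

namespace Pool.Agent.PP.SD.H43

open Pool.Agent.PP.SO.H43

/-- the comparison group with exact subgroups -/
theorem cgx (ℓ : ℕ) [hl : Fact ℓ.Prime] (hl2 : ℓ ≠ 2) (V₀ : Type) [CommGroup V₀] [Finite V₀]
    (hV : ∀ v : V₀, v ^ ℓ = 1) (hc : Nat.card V₀ = ℓ ^ 2) (E₀ : Subgroup (MulAut V₀)) (k : ℕ)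
    (P : Subgroup V₀ → Prop)
    (hP : ∀ W : Subgroup V₀, ∀ φ ∈ E₀, P (W.map (φ : V₀ ≃* V₀).toMonoidHom) ↔ P W)
    (U : Subgroup V₀ → ℤ) (hU : ∀ W, (ℓ : ℤ) ∣ U W - 1)
    (hUE : ∀ W : Subgroup V₀, ¬ P W → ∀ φ ∈ E₀, U (W.map (φ : V₀ ≃* V₀).toMonoidHom) = U W) :
    ∃ (G : Type) (_ : Group G) (_ : Finite G) (π : G →* V₀ ⋊[E₀.subtype] E₀)
      (j : V₀ ⋊[E₀.subtype] E₀ →* G), (∀ y, π (j y) = y) ∧ ¬ ℓ ∣ Nat.card π.ker ∧
      Subgroup.centralizer ((j.comp SemidirectProduct.inl).range : Set G) ≤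
        (j.comp SemidirectProduct.inl).range ∧
      (∀ W : Subgroup V₀, W ≠ ⊥ → (W = ⊤ ∨ P W) → Nat.card (π.ker ⊓
        Subgroup.centralizer (W.map (j.comp SemidirectProduct.inl) : Set G) : Subgroup G) = 1) ∧
      ∀ W : Subgroup V₀, W ≠ ⊥ → W ≠ ⊤ → ¬ P W → ((ℓ ^ k : ℕ) : ℤ) ∣ (Nat.card (π.ker ⊓
        Subgroup.centralizer (W.map (j.comp SemidirectProduct.inl) : Set G) : Subgroup G) : ℤ) -
          U W := by
  classical
  -- the prime `p`
  have hlp : IsCoprime ((1 + ℓ : ℕ) : ℤ) (ℓ ^ 2 : ℕ) := by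
    rw [Nat.isCoprime_iff_coprime]
    apply Nat.Coprime.pow_right
    simp
  obtain ⟨p, hp0, hpp, hpm⟩ := Nat.forall_exists_prime_gt_and_zmodEq ℓ
    (pow_ne_zero 2 hl.out.ne_zero) hlp
  have hpF : Fact p.Prime := ⟨hpp⟩
  have hl1 : 1 < ℓ := hl.out.one_lt
  have hd2 : ((ℓ : ℤ)) ^ 2 ∣ (p : ℤ) - (1 + ℓ) := by
    have := Int.modEq_iff_dvd.1 hpm.symm
    push_cast at this ⊢
    exact this
  have hd1 : (ℓ : ℤ) ∣ (p : ℤ) - 1 := by
    have h1 : (ℓ : ℤ) ∣ (p : ℤ) - (1 + ℓ) :=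
      (Dvd.intro _ (by ring : (ℓ : ℤ) * ℓ = (ℓ : ℤ) ^ 2)).trans hd2
    have h2 := dvd_add h1 (dvd_refl (ℓ : ℤ))
    have h3 : (p : ℤ) - (1 + ℓ) + ℓ = p - 1 := by ring
    rwa [h3] at h2
  have hdn : ℓ ∣ p - 1 := by
    have : ((p - 1 : ℕ) : ℤ) = (p : ℤ) - 1 := by
      rw [Nat.cast_sub hpp.one_lt.le, Nat.cast_one]
    exact Int.natCast_dvd_natCast.1 (this ▸ hd1)
  -- `g = p ^ (ℓ - 1)`
  have hg1 : (ℓ : ℤ) ∣ (p : ℤ) ^ (ℓ - 1) - 1 := by
    have := sub_dvd_pow_sub_pow (p : ℤ) 1 (ℓ - 1)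
    rw [one_pow] at this
    exact hd1.trans this
  have hg2 : ¬ (ℓ : ℤ) ^ 2 ∣ (p : ℤ) ^ (ℓ - 1) - 1 := by
    intro h
    have h1 : (ℓ : ℤ) ^ 2 ∣ (p : ℤ) ^ (ℓ - 1) - (1 + ℓ) ^ (ℓ - 1) :=
      hd2.trans (sub_dvd_pow_sub_pow _ _ _)
    obtain ⟨c, hc'⟩ := pow_one_add (ℓ : ℤ) (ℓ - 1)
    have h2 := dvd_sub h h1
    have h3 : (p : ℤ) ^ (ℓ - 1) - 1 - ((p : ℤ) ^ (ℓ - 1) - (1 + ℓ) ^ (ℓ - 1)) =
        ((ℓ - 1 : ℕ) : ℤ) * ℓ + (ℓ : ℤ) ^ 2 * c := by
      rw [hc']
      ring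
    rw [h3] at h2
    have h4 : (ℓ : ℤ) ^ 2 ∣ ((ℓ - 1 : ℕ) : ℤ) * ℓ := (dvd_add_left (Dvd.intro _ rfl)).1 h2
    have h5 : (ℓ : ℤ) ∣ ((ℓ - 1 : ℕ) : ℤ) := by
      rw [pow_two] at h4
      exact Int.dvd_of_mul_dvd_mul_right (by exact_mod_cast hl.out.ne_zero) h4
    have h6 := Nat.le_of_dvd (by omega) (Int.natCast_dvd_natCast.1 h5)
    omega
  have hex := exn ℓ hl2 ((p : ℤ) ^ (ℓ - 1)) hg1 hg2 k
  let n : ℤ → ℕ := fun u => if h : (ℓ : ℤ) ∣ u - 1 then (hex u h).choose else 0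
  let a : Subgroup V₀ → ℕ := fun W => if P W then 0 else n (U W)
  have ha : ∀ (W : Subgroup V₀), ∀ φ ∈ E₀, a (W.map (φ : V₀ ≃* V₀).toMonoidHom) = a W := by
    intro W φ hφ
    by_cases h1 : P W
    · have h2 := (hP W φ hφ).2 h1
      exact (if_pos h2).trans (if_pos h1).symm
    · have h2 : ¬ P (W.map (φ : V₀ ≃* V₀).toMonoidHom) := fun h => h1 ((hP W φ hφ).1 h)
      exact (if_neg h2).trans ((congrArg n (hUE W h1 φ hφ)).trans (if_neg h1).symm)
  have haU : ∀ W, ¬ P W → (ℓ : ℤ) ^ k ∣ ((p : ℤ) ^ (ℓ - 1)) ^ a W - U W := by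
    intro W hW
    have h1 : a W = (hex (U W) (hU W)).choose := (if_neg hW).trans (dif_pos (hU W))
    rw [h1]
    exact (hex (U W) (hU W)).choose_spec
  have hJ := finJ (V₀ := V₀) (p := p) (a := a)
  have hio : (SemidirectProduct.inr : V₀ ⋊[E₀.subtype] E₀ →* GC (p := p) ha).comp
      SemidirectProduct.inl = io ha := rfl
  refine ⟨GC (p := p) ha, inferInstance, finG ha, pr ha, SemidirectProduct.inr, fun _ => rfl,
    ?_, ?_, ?_, ?_⟩
  · have h1 := card_fix (p := p) ha ⊥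
    rw [Subgroup.map_bot, Subgroup.coe_bot] at h1
    have h2 : (pr (p := p) ha).ker ⊓ Subgroup.centralizer ({1} : Set (GC (p := p) ha)) =
        (pr (p := p) ha).ker := by
      rw [inf_eq_left]
      intro x _
      rw [Subgroup.mem_centralizer_iff]
      rintro y rfl
      rw [one_mul, mul_one]
    rw [h2] at h1
    rw [h1]
    intro h3
    have h4 := (Nat.prime_dvd_prime_iff_eq hl.out hpp).1 (hl.out.dvd_of_dvd_pow h3)
    exact absurd h4 hp0.ne
  · rw [hio]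
    intro x hx
    rw [Subgroup.mem_centralizer_iff] at hx
    have h1 : ∀ v : V₀, io ha v * x = x * io ha v := fun v => hx _ ⟨v, rfl⟩
    -- the component in `E₀` is trivial
    have h2 : x.right.right = 1 := by
      apply Subtype.ext
      apply MulEquiv.ext
      intro v
      have h3 := congrArg (fun y : GC (p := p) ha => y.right.left) (h1 v)
      change v * (1 : MulAut V₀) x.right.left = x.right.left * (x.right.right : MulAut V₀) v at h3
      have h4 : v * x.right.left = x.right.left * (x.right.right : MulAut V₀) v := h3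
      rw [mul_comm v] at h4
      exact (mul_left_cancel h4).symm
    have h3 : x = SemidirectProduct.inl x.left * io ha x.right.left := by
      apply SemidirectProduct.ext
      · simp [io]
      · apply SemidirectProduct.ext
        · simp [io]
        · simp [io, h2]
    have h4 : ∀ v : V₀,
        io ha v * SemidirectProduct.inl x.left = SemidirectProduct.inl x.left * io ha v := by
      intro v
      have h5 := h1 v
      rw [h3] at h5
      have h6 : io ha x.right.left * io ha v = io (p := p) ha v * io ha x.right.left := by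
        rw [← map_mul, ← map_mul, mul_comm]
      rw [mul_assoc, h6, ← mul_assoc, ← mul_assoc] at h5
      exact mul_right_cancel h5
    have h5 : x.left = 1 := by
      apply Multiplicative.toAdd.injective
      funext j
      by_contra h6
      apply j.2.1
      ext v
      have h7 := (comm_iff ha v x.left).1 (h4 v) j
      exact mul_right_cancel₀ h6 (h7.trans (one_mul _).symm)
    rw [h3, h5, map_one, one_mul]
    exact ⟨_, rfl⟩
  · intro W hW hWP
    rw [hio, card_fix]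
    have h0 : Nat.card {j : JJ p a // W ≤ j.1.1.ker} = 0 := by
      rcases eq_or_ne W ⊤ with hT | hT
      · rw [Nat.card_eq_zero]
        left
        constructor
        rintro ⟨j, hj⟩
        rw [hT, top_le_iff] at hj
        exact j.2.1 (MonoidHom.ker_eq_top_iff.1 hj)
      · rw [card_J ℓ p hdn V₀ hV hc a W hW hT]
        have h1 : a W = 0 := if_pos (hWP.resolve_left hT)
        rw [h1, mul_zero]
    rw [h0, pow_zero]
  · intro W hW hW' hWP
    rw [hio, card_fix, card_J ℓ p hdn V₀ hV hc a W hW hW', pow_mul]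
    have := haU W hWP
    push_cast
    exact this

end Pool.Agent.PP.SD.H43
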