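import Pool.Agent.Helper43_ASD.CGX
import Pool.Agent.Helper76_ASO.CMI
import Pool.Agent.Helper15_ASO.CMB

/-!
# Squad ASD, row CBG: the comparison blocks
-/

open scoped BigOperators

noncomputable section

namespace Pool.Agent.PP.SD.H43

open Pool.Agent.Helper51_AWC Pool.Agent.Helper79_WRA Pool.Agent.PP Pool.Agent.PP.KF
open Pool.Agent.PP.K9 Pool.Agent.PP.K9.H97 Pool.Agent.PP.H75 Pool.Agent.PP.T3 Pool.Agent.PP.SO
open Pool.Agent.PP.SO.H76

attribute [local instance] Ideal.Quotient.field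

section datum

variable {V₀ : Type} [CommGroup V₀] {E₀ : Subgroup (MulAut V₀)} {G : Type} [Group G]

open Classical in
/-- the datum of the comparison group -/
def BC (F : Type) [Field F] (π : G →* V₀ ⋊[E₀.subtype] E₀) (ι : V₀ →* G) : Bk F V₀ G where
  e := CM.kf F π
  g := one1
  i := ι
  b W x := if x ∈ Subgroup.centralizer ((W.map ι : Subgroup G) : Set G) then CM.kf F π x else 0
  D _ := 1
  S _ := 1

end datum

/-- the properties of the datum -/
theorem cmx (inf : InfStmt) (onb : OnbStmt) (ℓ : ℕ) [Fact ℓ.Prime]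
    (M : Ideal (integralClosure ℤ ℂ)) [M.IsMaximal] (hM : (ℓ : integralClosure ℤ ℂ) ∈ M)
    (V₀ : Type) [CommGroup V₀] [Finite V₀] (hex : ∀ v : V₀, v ^ ℓ = 1)
    (hcd : Nat.card V₀ = ℓ ^ 2) (E₀ : Subgroup (MulAut V₀)) (hE : ¬ ℓ ∣ Nat.card E₀)
    (G : Type) [Group G] [Finite G] (π : G →* V₀ ⋊[E₀.subtype] E₀) (ι : V₀ →* G)
    (ε : E₀ →* G) (hs : Function.Surjective π) (hK : ¬ ℓ ∣ Nat.card π.ker)
    (hι : ∀ v, π (ι v) = SemidirectProduct.inl v)
    (hconj : ∀ (φ : E₀) (v : V₀), ε φ * ι v * (ε φ)⁻¹ = ι ((φ : MulAut V₀) v))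
    (hcent : Subgroup.centralizer (ι.range : Set G) ≤ ι.range) :
    Sb ℓ M E₀ (BC (FF M) π ι) ∧
    (IrrE M (BC (FF M) π ι).e).ncard = (Irr (V₀ ⋊[E₀.subtype] E₀)).ncard ∧
    (∀ x : G, El ℓ x → x ^ ℓ = 1) ∧
    ∀ (W : Subgroup V₀), (∀ σ ∈ E₀, (∀ w ∈ W, σ w = w) → σ = 1) →
      Dg M (fun t : (BC (FF M) π ι).C W => (BC (FF M) π ι).b W t) 1 := by
  have hF : GoodF ℓ (FF M) := H50.fld ℓ Fact.out M hM
  have hch : CharP (FF M) ℓ := hF.char
  have h : CM.Cx ℓ E₀ π ι := ⟨hex, hcd, hE, hs, hK, hι, hcent⟩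
  have hb1 : ∀ (W : Subgroup V₀) (x : G),
      x ∈ Subgroup.centralizer ((W.map ι : Subgroup G) : Set G) →
        (BC (FF M) π ι).b W x = CM.kf (FF M) π x := fun W x hx => if_pos hx
  have hb0 : ∀ (W : Subgroup V₀) (x : G),
      x ∉ Subgroup.centralizer ((W.map ι : Subgroup G) : Set G) →
        (BC (FF M) π ι).b W x = 0 := fun W x hx => if_neg hx
  have hb2 : ∀ W : Subgroup V₀,
      (fun t : Subgroup.centralizer ((W.map ι : Subgroup G) : Set G) =>
        (BC (FF M) π ι).b W t) =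
        CM.kf (FF M) (π.subgroupMap
          (Subgroup.centralizer ((W.map ι : Subgroup G) : Set G))) := by
    intro W
    funext t
    rw [hb1 W t t.2]
    unfold CM.kf
    by_cases ht : π t = 1
    · rw [if_pos ht, if_pos (Subtype.ext ht)]
    · rw [if_neg ht, if_neg]
      exact fun h' => ht (congrArg Subtype.val h')
  refine ⟨⟨h.inj, h.ld M inf onb hM, ?_, ?_, ?_⟩, ?_, ?_, ?_⟩
  · intro t ht
    exact ⟨_, (π t).right.2, fun v => h.conj ht.1 v⟩
  · intro σ hσ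
    have hc : ∀ v, ε ⟨σ, hσ⟩ * ι v * (ε ⟨σ, hσ⟩)⁻¹ = ι (σ v) := fun v => hconj ⟨σ, hσ⟩ v
    refine ⟨ε ⟨σ, hσ⟩, ⟨?_, ?_⟩, hc⟩
    · change ε ⟨σ, hσ⟩ ∈ Subgroup.normalizer (ι.range : Set G)
      rw [Subgroup.mem_normalizer_iff]
      intro x
      constructor
      · rintro ⟨v, rfl⟩
        rw [hc]
        exact ⟨_, rfl⟩
      · rintro ⟨w, hw⟩
        refine ⟨σ⁻¹ w, ?_⟩
        have h1 := hc (σ⁻¹ w)
        have h2 : σ (σ⁻¹ w) = w := σ.apply_symm_apply w
        rw [h2, hw] at h1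
        have h3 := mul_left_cancel (mul_right_cancel h1)
        exact h3
    · intro x
      change (one1 (ε ⟨σ, hσ⟩ * x * (ε ⟨σ, hσ⟩)⁻¹) : FF M) = one1 x
      unfold one1
      by_cases hx : x = 1
      · rw [if_pos hx, if_pos (by rw [hx]; group)]
      · rw [if_neg hx, if_neg]
        intro h'
        exact hx (conj_eq_one_iff.1 h')
  · intro W
    refine ⟨⟨fun x hx => hb0 W x hx, ?_⟩, ?_, ?_⟩
    · change IsBlk (fun t : Subgroup.centralizer ((W.map ι : Subgroup G) : Set G) =>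
        (BC (FF M) π ι).b W t)
      rw [hb2]
      exact (h.blkC M inf onb hM (CM.range_le W)).1
    · have e : (fun t : Subgroup.centralizer ((W.map ι : Subgroup G) : Set G) =>
          CM.kf (FF M) π t) =
          fun t : Subgroup.centralizer ((W.map ι : Subgroup G) : Set G) =>
            (BC (FF M) π ι).b W t := by
        funext t
        exact (hb1 W t t.2).symm
      change mulF (fun t : Subgroup.centralizer ((W.map ι : Subgroup G) : Set G) =>
          CM.kf (FF M) π t)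
        (fun t : Subgroup.centralizer ((W.map ι : Subgroup G) : Set G) =>
          (BC (FF M) π ι).b W t) =
        fun t : Subgroup.centralizer ((W.map ι : Subgroup G) : Set G) =>
          (BC (FF M) π ι).b W t
      rw [e, hb2]
      exact (h.blkC M inf onb hM (CM.range_le W)).1.1.2
    · change mulF (br ι.range ((BC (FF M) π ι).b W)) one1 = one1
      rw [h.br fun x hx => hb1 W x (CM.range_le W hx)]
      exact (h.bxg M onb hM).mul
  · change (IrrE M (CM.kf (FF M) π)).ncard = _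
    rw [(h.blk M inf onb hM).2]
    have e : {χ : G → ℂ | ∃ κ ∈ Irr (V₀ ⋊[E₀.subtype] E₀), χ = fun x => κ (π x)} =
        (fun κ : V₀ ⋊[E₀.subtype] E₀ → ℂ => fun x : G => κ (π x)) ''
          Irr (V₀ ⋊[E₀.subtype] E₀) := by
      ext χ
      constructor
      · rintro ⟨κ, hκ, rfl⟩
        exact ⟨κ, hκ, rfl⟩
      · rintro ⟨κ, hκ, rfl⟩
        exact ⟨κ, hκ, rfl⟩
    rw [e]
    refine Set.ncard_image_of_injective _ fun κ κ' hκ => ?_
    funext y
    obtain ⟨x, rfl⟩ := hs y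
    exact congrFun hκ x
  · rintro x ⟨n, hn⟩
    have h1 : (π x).right = 1 := by
      have h2 : (π x).right ^ ℓ ^ n = 1 := by
        have h3 := congrArg (fun y => SemidirectProduct.rightHom (π y)) hn
        simp only [map_pow, map_one] at h3
        exact h3
      have h4 := CM.cop (ℓ := ℓ) (K := (⊤ : Subgroup E₀)) (x := (π x).right) (by
        rw [Subgroup.card_top]
        exact hE) (Subgroup.mem_top _) (n := n) h2
      exact h4
    have h2 : π (x ^ ℓ) = 1 := by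
      rw [map_pow, CM.eq_inl h1, ← map_pow, hex, map_one]
    refine CM.cop hK (x := x ^ ℓ) h2 (n := n) ?_
    rw [← pow_mul, mul_comm, pow_mul, hn, one_pow]
  · intro W hW
    change Dg M (fun t : Subgroup.centralizer ((W.map ι : Subgroup G) : Set G) =>
      (BC (FF M) π ι).b W t) 1
    rw [hb2]
    exact h.dg M inf onb hM W hW

section pair

variable {V₀ : Type} [CommGroup V₀] {E₀ : Subgroup (MulAut V₀)} {G : Type} [Group G]
  {π : G →* V₀ ⋊[E₀.subtype] E₀} {j : V₀ ⋊[E₀.subtype] E₀ →* G}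

theorem j_inj (hj : ∀ y, π (j y) = y) : Function.Injective j :=
  Function.LeftInverse.injective hj

/-- the elements of the image of `j` which centralise `W` -/
theorem mem_cen (hj : ∀ y, π (j y) = y) (W : Subgroup V₀) (y : V₀ ⋊[E₀.subtype] E₀) :
    j y ∈ Subgroup.centralizer
        ((W.map (j.comp SemidirectProduct.inl) : Subgroup G) : Set G) ↔
      y ∈ Subgroup.centralizer ((W.map (SemidirectProduct.inl : V₀ →* V₀ ⋊[E₀.subtype] E₀) :
        Subgroup (V₀ ⋊[E₀.subtype] E₀)) : Set (V₀ ⋊[E₀.subtype] E₀)) := by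
  rw [Subgroup.mem_centralizer_iff, Subgroup.mem_centralizer_iff]
  constructor
  · rintro h _ ⟨w, hw, rfl⟩
    have h1 := h (j (SemidirectProduct.inl w)) ⟨w, hw, rfl⟩
    rw [← map_mul, ← map_mul] at h1
    exact j_inj hj h1
  · rintro h _ ⟨w, hw, rfl⟩
    change j (SemidirectProduct.inl w) * j y = j y * j (SemidirectProduct.inl w)
    rw [← map_mul, ← map_mul, h _ ⟨w, hw, rfl⟩]

/-- `π` maps the centraliser of `W` to the centraliser of `W` -/
theorem pi_cen (hj : ∀ y, π (j y) = y) (W : Subgroup V₀) {x : G}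
    (hx : x ∈ Subgroup.centralizer
      ((W.map (j.comp SemidirectProduct.inl) : Subgroup G) : Set G)) :
    π x ∈ Subgroup.centralizer ((W.map (SemidirectProduct.inl : V₀ →* V₀ ⋊[E₀.subtype] E₀) :
        Subgroup (V₀ ⋊[E₀.subtype] E₀)) : Set (V₀ ⋊[E₀.subtype] E₀)) := by
  rw [Subgroup.mem_centralizer_iff] at hx ⊢
  rintro _ ⟨w, hw, rfl⟩
  have h1 := congrArg π (hx (j (SemidirectProduct.inl w)) ⟨w, hw, rfl⟩)
  rwa [map_mul, map_mul, hj] at h1

/-- the pair -/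
theorem pr_of (F : Type) [Field F] (hj : ∀ y, π (j y) = y) (A : Subgroup V₀)
    (hA : Nat.card (π.ker ⊓ Subgroup.centralizer
      (A.map (j.comp SemidirectProduct.inl) : Set G) : Subgroup G) = 1) :
    Pr A (BC F π (j.comp SemidirectProduct.inl))
      (BC F (MonoidHom.id (V₀ ⋊[E₀.subtype] E₀)) SemidirectProduct.inl) j := by
  refine ⟨j_inj hj, fun _ => rfl, ?_, ?_, ?_⟩
  · intro x hx
    refine ⟨π x, ?_⟩
    have h1 : j (π x) ∈ Subgroup.centralizer
        ((A.map (j.comp SemidirectProduct.inl) : Subgroup G) : Set G) :=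
      (mem_cen hj A _).2 (pi_cen hj A hx)
    have h2 : x * (j (π x))⁻¹ ∈ (π.ker ⊓ Subgroup.centralizer
        (A.map (j.comp SemidirectProduct.inl) : Set G) : Subgroup G) := by
      refine ⟨?_, Subgroup.mul_mem _ hx (Subgroup.inv_mem _ h1)⟩
      change π (x * (j (π x))⁻¹) = 1
      rw [map_mul, map_inv, hj, mul_inv_cancel]
    rw [Subgroup.card_eq_one.1 hA, Subgroup.mem_bot] at h2
    exact (mul_inv_eq_one.1 h2).symm
  · intro h
    change (one1 h : F) = one1 (j h)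
    unfold one1
    by_cases h1 : h = 1
    · rw [if_pos h1, if_pos (by rw [h1, map_one])]
    · rw [if_neg h1, if_neg]
      intro h2
      exact h1 (j_inj hj (h2.trans (map_one j).symm))
  · intro W _ h
    have e1 : (CM.kf F (MonoidHom.id (V₀ ⋊[E₀.subtype] E₀)) h : F) = CM.kf F π (j h) := by
      unfold CM.kf
      rw [hj]
      rfl
    by_cases h1 : h ∈ Subgroup.centralizer ((W.map (SemidirectProduct.inl :
        V₀ →* V₀ ⋊[E₀.subtype] E₀) : Subgroup (V₀ ⋊[E₀.subtype] E₀)) :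
          Set (V₀ ⋊[E₀.subtype] E₀))
    · exact (if_pos h1).trans (e1.trans (if_pos ((mem_cen hj W h).2 h1)).symm)
    · exact (if_neg h1).trans (if_neg fun h2 => h1 ((mem_cen hj W h).1 h2)).symm

/-- the order of the centraliser -/
theorem card_cen [Finite G] [Finite V₀] (hj : ∀ y, π (j y) = y) (W : Subgroup V₀) :
    Nat.card (Subgroup.centralizer
        ((W.map (j.comp SemidirectProduct.inl) : Subgroup G) : Set G)) =
      Nat.card V₀ * Nat.card (St E₀ W) * Nat.card (π.ker ⊓ Subgroup.centralizer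
        (W.map (j.comp SemidirectProduct.inl) : Set G) : Subgroup G) := by
  set C := Subgroup.centralizer
    ((W.map (j.comp SemidirectProduct.inl) : Subgroup G) : Set G) with hC
  set C' := Subgroup.centralizer ((W.map (SemidirectProduct.inl : V₀ →* V₀ ⋊[E₀.subtype] E₀) :
        Subgroup (V₀ ⋊[E₀.subtype] E₀)) : Set (V₀ ⋊[E₀.subtype] E₀)) with hC'
  have h1 : C.map π = C' := by
    apply le_antisymm
    · rintro _ ⟨x, hx, rfl⟩
      exact pi_cen hj W hx
    · intro y hy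
      exact ⟨j y, (mem_cen hj W y).2 hy, hj y⟩
  have h2 : Nat.card C = Nat.card C' * Nat.card (π.ker ⊓ C : Subgroup G) := by
    rw [← h1]
    have h3 := Subgroup.card_eq_card_quotient_mul_card_subgroup (π.subgroupMap C).ker
    rw [h3]
    congr 1
    · exact Nat.card_congr (QuotientGroup.quotientKerEquivOfSurjective _
        (MonoidHom.subgroupMap_surjective π C)).toEquiv
    · rw [Subgroup.ker_subgroupMap, ← Subgroup.inf_subgroupOf_right]
      exact Nat.card_congr (Subgroup.subgroupOfEquivOfLe inf_le_right).toEquiv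
  have h3 : Nat.card C' = Nat.card V₀ * Nat.card (St E₀ W) := by
    rw [← Nat.card_prod]
    refine (Nat.card_congr (Equiv.ofBijective (fun x : V₀ × St E₀ W =>
      (⟨⟨x.1, ⟨x.2, x.2.2.1⟩⟩, ?_⟩ : C')) ⟨?_, ?_⟩)).symm
    · rw [hC', Subgroup.mem_centralizer_iff]
      rintro _ ⟨w, hw, rfl⟩
      rw [CM.mul_inl]
      congr 2
      exact (x.2.2.2 w hw).symm
    · rintro ⟨v, σ⟩ ⟨v', σ'⟩ h
      have h4 := congrArg (fun y : C' => (y : V₀ ⋊[E₀.subtype] E₀)) h
      have h5 := (SemidirectProduct.ext_iff.1 h4).1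
      have h6 := congrArg Subtype.val (SemidirectProduct.ext_iff.1 h4).2
      exact Prod.ext h5 (Subtype.ext h6)
    · rintro ⟨y, hy⟩
      have h4 : (y.right : MulAut V₀) ∈ St E₀ W := by
        refine ⟨y.right.2, fun w hw => ?_⟩
        rw [hC', Subgroup.mem_centralizer_iff] at hy
        exact CM.right_fix (hy _ ⟨w, hw, rfl⟩).symm
      exact ⟨(y.left, ⟨_, h4⟩), rfl⟩
  rw [h2, h3]

end pair

/-- the exponents -/
theorem pe_of (ℓ : ℕ) [Fact ℓ.Prime] (G : Type) [Group G] [Finite G]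
    (hEl : ∀ x : G, El ℓ x → x ^ ℓ = 1) (r : ℕ) (hr : 0 < r) : ∃ m, PE ℓ (ℓ ^ r) m G := by
  have hℓ : ℓ.Prime := Fact.out
  obtain ⟨a, c, hc, hcard⟩ := Nat.exists_eq_pow_mul_and_not_dvd (n := Nat.card G)
    Nat.card_pos.ne' ℓ hℓ.ne_one
  have hco : Nat.Coprime ℓ c := (Nat.Prime.coprime_iff_not_dvd hℓ).2 hc
  obtain ⟨m, hm1, hm2⟩ := Nat.chineseRemainder hco 1 0
  have hmc : c ∣ m := (Nat.modEq_zero_iff_dvd).1 hm2
  refine ⟨m, ⟨r, hr, rfl⟩, ?_, ?_, ?_⟩
  · have h1 : m % ℓ = 1 % ℓ := hm1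
    rw [h1]
    exact Nat.mod_eq_of_lt hℓ.one_lt
  · intro g hg
    have h1 := hEl g hg
    refine ⟨?_, ?_⟩
    · have h2 : g ^ m = g ^ 1 := by
        rw [pow_eq_pow_iff_modEq]
        exact hm1.of_dvd (orderOf_dvd_of_pow_eq_one h1)
      rw [h2, pow_one]
    · obtain ⟨s, rfl⟩ : ∃ s, r = s + 1 := ⟨r - 1, by omega⟩
      rw [pow_succ', pow_mul, h1, one_pow]
  · intro g hg
    have h1 : orderOf g ∣ ℓ ^ a * c := by
      rw [← hcard]
      exact orderOf_dvd_natCard g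
    have h2 : orderOf g ∣ c := by
      refine Nat.Coprime.dvd_of_dvd_mul_left ?_ h1
      exact Nat.Coprime.pow_right a hg
    exact orderOf_dvd_iff_pow_eq_one.1 (h2.trans hmc)

theorem map_inv_map {V₀ : Type} [CommGroup V₀] (σ : MulAut V₀) (W : Subgroup V₀) :
    (W.map σ.toMonoidHom).map (σ⁻¹ : MulAut V₀).toMonoidHom = W := by
  ext x
  constructor
  · rintro ⟨_, ⟨y, hy, rfl⟩, rfl⟩
    change (σ⁻¹ : MulAut V₀) (σ y) ∈ W
    rw [MulAut.inv_apply_self]
    exact hy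
  · intro hx
    refine ⟨σ x, ⟨x, hx, rfl⟩, ?_⟩
    change (σ⁻¹ : MulAut V₀) (σ x) = x
    rw [MulAut.inv_apply_self]

theorem st_of_rw {V₀ : Type} [CommGroup V₀] {E₀ : Subgroup (MulAut V₀)} {W : Subgroup V₀}
    (h : ∀ σ ∈ E₀, (∀ w ∈ W, σ w = w) → σ = 1) : Nat.card (St E₀ W) = 1 := by
  rw [Subgroup.card_eq_one, Subgroup.eq_bot_iff_forall]
  rintro σ ⟨h1, h2⟩
  exact h σ h1 h2

/-- the numbers `U` and the structure `Sd` -/
theorem sd_of (inf : InfStmt) (onb : OnbStmt) (ℓ : ℕ) [Fact ℓ.Prime]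
    (M : Ideal (integralClosure ℤ ℂ)) [M.IsMaximal] (hM : (ℓ : integralClosure ℤ ℂ) ∈ M)
    (V₀ : Type) [CommGroup V₀] [Finite V₀] (E₀ : Subgroup (MulAut V₀)) (hq : Fq ℓ V₀ E₀)
    (G : Type) [Group G] [Finite G] (π : G →* V₀ ⋊[E₀.subtype] E₀)
    (j : V₀ ⋊[E₀.subtype] E₀ →* G) (hj : ∀ y, π (j y) = y) (hK : ¬ ℓ ∣ Nat.card π.ker)
    (hcent : Subgroup.centralizer ((j.comp SemidirectProduct.inl).range : Set G) ≤
      (j.comp SemidirectProduct.inl).range)
    (hT : Nat.card (π.ker ⊓ Subgroup.centralizer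
        ((⊤ : Subgroup V₀).map (j.comp SemidirectProduct.inl) : Set G) : Subgroup G) = 1)
    (hW : ∀ W : Subgroup V₀, W ≠ ⊥ → ∃ q ∈ SOR.Rl ℓ, (Nat.card (π.ker ⊓ Subgroup.centralizer
        (W.map (j.comp SemidirectProduct.inl) : Set G) : Subgroup G) : ℚ) = 1 + ℓ * q) :
    Sd ℓ M E₀ (BC (FF M) π (j.comp SemidirectProduct.inl)) ∧
    (IrrE M (BC (FF M) π (j.comp SemidirectProduct.inl)).e).ncard =
      (Irr (V₀ ⋊[E₀.subtype] E₀)).ncard ∧ ∀ r, 0 < r → ∃ m, PE ℓ (ℓ ^ r) m G := by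
  have hℓ : ℓ.Prime := Fact.out
  obtain ⟨h1, h2, h3, h4⟩ := cmx inf onb ℓ M hM V₀ hq.ex hq.cd E₀ hq.cp G π
    (j.comp SemidirectProduct.inl) (j.comp SemidirectProduct.inr) (fun y => ⟨j y, hj y⟩) hK
    (fun v => hj _) (fun φ v => by
      have h5 : (SemidirectProduct.inr φ * SemidirectProduct.inl v *
          (SemidirectProduct.inr φ)⁻¹ : V₀ ⋊[E₀.subtype] E₀) =
          SemidirectProduct.inl ((φ : MulAut V₀) v) := by
        rw [← map_inv, ← SemidirectProduct.inl_aut]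
        rfl
      change j (SemidirectProduct.inr φ) * j (SemidirectProduct.inl v) *
        (j (SemidirectProduct.inr φ))⁻¹ = j (SemidirectProduct.inl ((φ : MulAut V₀) v))
      rw [← h5, map_mul, map_mul, map_inv]) hcent
  refine ⟨⟨h1, fun W hr => h4 W hr.2, fun W _ => Or.inl rfl, fun W hr => ?_⟩, h2,
    pe_of ℓ G h3⟩
  obtain ⟨q, hq1, hq2⟩ := hW W hr.1
  refine ⟨q, hq1, ?_⟩
  rw [← hq2]
  have e1 : Nat.card ((BC (FF M) π (j.comp SemidirectProduct.inl)).C ⊤) = ℓ ^ 2 := by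
    have := card_cen (π := π) hj (⊤ : Subgroup V₀)
    rw [hT, hq.cd, st_of_rw (fun σ _ h5 => MulEquiv.ext fun v => h5 v (Subgroup.mem_top v)),
      mul_one, mul_one] at this
    exact this
  have e2 : Nat.card ((BC (FF M) π (j.comp SemidirectProduct.inl)).C W) =
      ℓ ^ 2 * Nat.card (π.ker ⊓ Subgroup.centralizer
        (W.map (j.comp SemidirectProduct.inl) : Set G) : Subgroup G) := by
    have := card_cen (π := π) hj W
    rw [hq.cd, st_of_rw hr.2, mul_one] at this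
    exact this
  have hl0 : (ℓ : ℚ) ≠ 0 := Nat.cast_ne_zero.2 hℓ.ne_zero
  unfold Bk.U
  rw [e1, e2]
  change (((1 : ℤ) : ℚ) * ((ℓ ^ 2 * _ : ℕ) : ℚ) * ((1 : ℕ) : ℚ)) /
    (((ℓ ^ 2 : ℕ) : ℚ) * ((1 : ℕ) : ℚ)) = _
  push_cast
  field_simp

/-- row CBG -/
theorem cbg (inf : InfStmt) (onb : OnbStmt) : CbgStmt := by
  intro ℓ _ M _ hM hℓ2 V₀ _ _ E₀ hq P hP
  have hℓ : ℓ.Prime := Fact.out
  have hfA : Finite (MulAut V₀) := Finite.of_injective (fun σ : MulAut V₀ => (σ : V₀ → V₀))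
    DFunLike.coe_injective
  have hfR : Finite (V₀ ⋊[E₀.subtype] E₀) := Finite.of_injective (fun x => (x.left, x.right))
    (fun x y h => SemidirectProduct.ext (Prod.ext_iff.1 h).1 (Prod.ext_iff.1 h).2)
  have hid : ∀ (C : Subgroup (V₀ ⋊[E₀.subtype] E₀)),
      Nat.card ((MonoidHom.id (V₀ ⋊[E₀.subtype] E₀)).ker ⊓ C : Subgroup _) = 1 := by
    intro C
    rw [Subgroup.card_eq_one, Subgroup.eq_bot_iff_forall]
    rintro x ⟨h1, -⟩
    exact h1
  obtain ⟨hR1, hR2, hR3⟩ := sd_of inf onb ℓ M hM V₀ E₀ hq (V₀ ⋊[E₀.subtype] E₀)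
    (MonoidHom.id _) (MonoidHom.id _) (fun _ => rfl) (by
      have h1 := hid ⊤
      rw [inf_top_eq] at h1
      rw [h1]
      exact hℓ.one_lt.ne' ∘ Nat.dvd_one.1) (by
      intro x hx
      rw [Subgroup.mem_centralizer_iff] at hx
      have h1 : x.right = 1 := by
        apply Subtype.ext
        apply MulEquiv.ext
        intro v
        exact CM.right_fix (hx (SemidirectProduct.inl v) ⟨v, rfl⟩).symm
      exact ⟨_, (CM.eq_inl h1).symm⟩) (hid _) (fun W _ => ⟨0, (SOR.Rl ℓ).zero_mem, by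
        rw [hid]
        push_cast
        ring⟩)
  refine ⟨V₀ ⋊[E₀.subtype] E₀, inferInstance, hfR,
    BC (FF M) (MonoidHom.id _) SemidirectProduct.inl, hR1, hR3, ?_⟩
  intro k U hU1 hU2 hU3
  classical
  have hPi : ∀ W : Subgroup V₀, ∀ φ ∈ E₀, P (W.map (φ : V₀ ≃* V₀).toMonoidHom) ↔ P W := by
    intro W φ hφ
    constructor
    · intro h
      have h1 := (hP _ h).2 φ⁻¹ (E₀.inv_mem hφ)
      have h2 := map_inv_map φ W
      rw [← h2]
      exact h1
    · intro h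
      exact (hP _ h).2 φ hφ
  obtain ⟨G, iG, iF, π, j, hj, hk, hcent, hex, hap⟩ := cgx ℓ hℓ2 V₀ hq.ex hq.cd E₀ (k + 1) P hPi
    (fun W => if W = ⊥ then 1 else SO.H15.nn ℓ k (U W)) (by
      intro W
      by_cases hW : W = ⊥
      · rw [if_pos hW, sub_self]
        exact dvd_zero _
      · rw [if_neg hW]
        exact SO.H15.nn_dvd ℓ k (U W)) (by
      intro W hPW φ hφ
      by_cases hW : W = ⊥
      · subst hW
        rw [Subgroup.map_bot]
      · have hW2 : ¬ W.map (φ : V₀ ≃* V₀).toMonoidHom = ⊥ := by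
          intro h
          apply hW
          rw [Subgroup.map_eq_bot_iff] at h
          rw [eq_bot_iff]
          refine h.trans ?_
          intro x hx
          have hx1 : (φ : V₀ ≃* V₀) x = 1 := hx
          rw [Subgroup.mem_bot]
          exact (MulEquiv.map_eq_one_iff (φ : V₀ ≃* V₀)).1 hx1
        rw [if_neg hW, if_neg hW2]
        exact congrArg (SO.H15.nn ℓ k) (hU3 W hW hPW φ hφ))
  have hV1 : (⊤ : Subgroup V₀) ≠ ⊥ := by
    intro h
    have h1 := Subgroup.card_top (G := V₀)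
    rw [h, Subgroup.card_bot, hq.cd] at h1
    have h2 := Nat.one_lt_pow two_ne_zero hℓ.one_lt
    omega
  obtain ⟨κ, hκ⟩ : ∃ κ : Subgroup V₀ → ℕ, κ = fun W => Nat.card (π.ker ⊓ Subgroup.centralizer
      (W.map (j.comp SemidirectProduct.inl) : Set G) : Subgroup G) := ⟨_, rfl⟩
  have hκ' : ∀ W, κ W = Nat.card (π.ker ⊓ Subgroup.centralizer
      (W.map (j.comp SemidirectProduct.inl) : Set G) : Subgroup G) := fun W => congrFun hκ W
  have hκT : κ ⊤ = 1 := by
    rw [hκ']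
    exact hex ⊤ hV1 (Or.inl rfl)
  have hκP : ∀ W, W ≠ ⊥ → P W → κ W = 1 := by
    intro W hW hPW
    rw [hκ']
    exact hex W hW (Or.inr hPW)
  have hκU : ∀ W, W ≠ ⊥ → ¬ P W → ∃ q ∈ SOR.Rl ℓ, (κ W : ℚ) - U W = ℓ ^ (k + 1) * q := by
    intro W hW hPW
    by_cases hT : W = ⊤
    · refine ⟨0, (SOR.Rl ℓ).zero_mem, ?_⟩
      rw [hT, hκT, hU1]
      push_cast
      ring
    · obtain ⟨z, hz⟩ := hap W hW hT hPW
      rw [if_neg hW, ← hκ'] at hz
      obtain ⟨q, hq1, hq2⟩ := SO.H15.nn_spec ℓ k (U W) (hU2 W hW hPW)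
      refine ⟨z - q, (SOR.Rl ℓ).sub_mem (SO.H15.int_Rl ℓ z) hq1, ?_⟩
      have hz2 : ((κ W : ℤ) : ℚ) - (SO.H15.nn ℓ k (U W) : ℚ) =
          (((ℓ ^ (k + 1) : ℕ) : ℤ) * z : ℤ) := by
        rw [← hz]
        push_cast
        rfl
      push_cast at hz2
      have e : (κ W : ℚ) - U W = ((κ W : ℚ) - (SO.H15.nn ℓ k (U W) : ℚ)) -
          (U W - SO.H15.nn ℓ k (U W)) := by ring
      rw [e, hz2, hq2]
      ring
  obtain ⟨hB1, hB2, hB3⟩ := sd_of inf onb ℓ M hM V₀ E₀ hq G π j hj hk hcent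
    (by rw [← hκ']; exact hκT) (by
      intro W hW
      rw [← hκ']
      by_cases hPW : P W
      · refine ⟨0, (SOR.Rl ℓ).zero_mem, ?_⟩
        rw [hκP W hW hPW]
        push_cast
        ring
      · obtain ⟨q, hq1, hq2⟩ := hκU W hW hPW
        obtain ⟨q', hq1', hq2'⟩ := hU2 W hW hPW
        refine ⟨ℓ ^ k * q + q', (SOR.Rl ℓ).add_mem ((SOR.Rl ℓ).mul_mem
          (pow_mem (natCast_mem _ ℓ) k) hq1) hq1', ?_⟩
        have e : (κ W : ℚ) = ((κ W : ℚ) - U W) + U W := by ring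
        rw [e, hq2, hq2', pow_succ]
        ring)
  refine ⟨G, iG, iF, BC (FF M) π (j.comp SemidirectProduct.inl), j, κ, hB1, ?_, hB3, hB2,
    fun _ => rfl, fun _ => rfl, hκT, ?_⟩
  · intro A hA
    exact pr_of (FF M) hj A (by rw [← hκ']; exact hκP A (hP A hA).1 hA)
  · intro W hW
    refine ⟨?_, hκP W hW, ?_⟩
    · have h1 := card_cen (π := π) hj W
      rw [hq.cd, ← hκ'] at h1
      exact h1
    · intro hPW
      obtain ⟨q, hq1, hq2⟩ := hκU W hW hPW
      refine ⟨ℓ * q, (SOR.Rl ℓ).mul_mem (natCast_mem _ ℓ) hq1, ?_⟩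
      rw [hq2, pow_succ]
      ring

end Pool.Agent.PP.SD.H43
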