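import Pool.Agent.ASD.Stmts7
import Pool.Agent.ASD.Stmts3

/-!
# Squad ASD, row CBX: the comparison blocks for `Dx`
-/

open scoped BigOperators

noncomputable section

namespace Pool.Agent.PP.SD.H43X

open Pool.Agent.Helper51_AWC Pool.Agent.Helper79_WRA Pool.Agent.PP Pool.Agent.PP.KF
open Pool.Agent.PP.K9 Pool.Agent.PP.K9.H97 Pool.Agent.PP.H75 Pool.Agent.PP.T3 Pool.Agent.PP.SO

attribute [local instance] Ideal.Quotient.field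

theorem bot_of_map {V₀ : Type} [CommGroup V₀] (σ : MulAut V₀) (W : Subgroup V₀)
    (h : W.map σ.toMonoidHom = ⊥) : W = ⊥ := by
  rw [Subgroup.eq_bot_iff_forall]
  intro x hx
  have h1 : σ x ∈ W.map σ.toMonoidHom := ⟨x, hx, rfl⟩
  rw [h, Subgroup.mem_bot] at h1
  exact (MulEquiv.map_eq_one_iff σ).1 h1

/-- a subgroup which is mapped to itself -/
theorem map_self {V₀ : Type} [CommGroup V₀] [Finite V₀] (σ : MulAut V₀) (A : Subgroup V₀)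
    (h : ∀ v ∈ A, σ v ∈ A) : A.map σ.toMonoidHom = A := by
  apply Subgroup.eq_of_le_of_card_ge
  · rintro _ ⟨v, hv, rfl⟩
    exact h v hv
  · rw [Subgroup.card_map_of_injective]
    exact σ.injective

/-- `U ⊤ = 1` -/
theorem U_top {ℓ : ℕ} [Fact ℓ.Prime] (hℓ2 : ℓ ≠ 2) {M : Ideal (integralClosure ℤ ℂ)}
    [M.IsMaximal] {V₀ G : Type} [CommGroup V₀] [Finite V₀] [Group G] [Finite G]
    {E₀ : Subgroup (MulAut V₀)} {B : Bk (FF M) V₀ G} (hB : Sd ℓ M E₀ B) (hT : Rw E₀ ⊤) :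
    B.U ⊤ = 1 := by
  have hℓ : ℓ.Prime := Fact.out
  have h1 : B.U ⊤ = B.S ⊤ := by
    have hc : (Nat.card (B.C ⊤) : ℚ) ≠ 0 := Nat.cast_ne_zero.2 Nat.card_pos.ne'
    have hd : (B.D ⊤ : ℚ) ≠ 0 := Nat.cast_ne_zero.2 (hB.dg ⊤ hT).1.ne'
    unfold Bk.U
    field_simp
  rcases hB.sg ⊤ hT with h2 | h2
  · rw [h1, h2]
    norm_num
  · exfalso
    obtain ⟨q, hq, hq2⟩ := hB.un ⊤ hT
    rw [h1, h2] at hq2
    -- `ℓ q = - 2`
    have h3 : (ℓ : ℚ) * q = -2 := by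
      push_cast at hq2
      linarith
    have hl0 : (ℓ : ℚ) ≠ 0 := Nat.cast_ne_zero.2 hℓ.ne_zero
    have h4 : ¬ ℓ ∣ q.den := hq
    have h5 : q = q.num / q.den := (Rat.num_div_den q).symm
    have h6 : (q.den : ℚ) ≠ 0 := Nat.cast_ne_zero.2 q.den_ne_zero
    have h7 : (ℓ : ℚ) * q.num = -2 * q.den := by
      rw [h5] at h3
      field_simp at h3
      linarith
    have h8 : (ℓ : ℤ) * q.num = -2 * q.den := by exact_mod_cast h7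
    have h9 : (ℓ : ℤ) ∣ 2 * (q.den : ℤ) := ⟨-q.num, by linarith⟩
    have hp : Prime (ℓ : ℤ) := Nat.prime_iff_prime_int.1 hℓ
    rcases hp.dvd_or_dvd h9 with h10 | h10
    · have h11 : ℓ ∣ 2 := by exact_mod_cast h10
      exact hℓ2 ((Nat.prime_dvd_prime_iff_eq hℓ Nat.prime_two).1 h11)
    · exact h4 (by exact_mod_cast h10)

/-- row CBX -/
theorem cbx (cbg : CbgStmt) (cjd : CjdStmt) (dix : DixStmt) : CbxStmt := by
  intro ℓ _ M _ hM hℓ2 V₀ _ _ E₀ A₁ A₂ hD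
  have hℓ : ℓ.Prime := Fact.out
  obtain ⟨hOf, ⟨hA1, hA2, hA1T, hA2T, -⟩, -⟩ := dix ℓ V₀ E₀ A₁ A₂ hD
  have hm1 : ∀ σ ∈ E₀, A₁.map σ.toMonoidHom = A₁ := fun σ hσ => map_self σ A₁ (hD.s1 σ hσ)
  have hm2 : ∀ σ ∈ E₀, A₂.map σ.toMonoidHom = A₂ := fun σ hσ => map_self σ A₂ (hD.s2 σ hσ)
  obtain ⟨H, iH, iF, BR, hR1, hR2, hR⟩ := cbg ℓ M hM hℓ2 V₀ E₀ hD.toFq
    (fun W => W = A₁ ∨ W = A₂) (by
      rintro W (rfl | rfl)
      · exact ⟨hA1, fun σ hσ => Or.inl (hm1 σ hσ)⟩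
      · exact ⟨hA2, fun σ hσ => Or.inr (hm2 σ hσ)⟩)
  refine ⟨H, iH, iF, BR, (Irr (V₀ ⋊[E₀.subtype] E₀)).ncard, hR1, hR2, ?_⟩
  intro G _ _ B hB r k hr
  have hT : Of A₁ A₂ (⊤ : Subgroup V₀) := by
    refine ⟨?_, hA1T.symm, hA2T.symm⟩
    intro h
    have h1 := Subgroup.card_top (G := V₀)
    rw [h, Subgroup.card_bot, hD.cd] at h1
    have h2 := Nat.one_lt_pow two_ne_zero hℓ.one_lt
    omega
  have hof : ∀ W : Subgroup V₀, W ≠ ⊥ → ¬ (W = A₁ ∨ W = A₂) → Of A₁ A₂ W :=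
    fun W h1 h2 => ⟨h1, fun h => h2 (Or.inl h), fun h => h2 (Or.inr h)⟩
  obtain ⟨G', iG, iFG, B', j, κ, h1, h2, h3, h4, h5, h6, h7, h8⟩ := hR k B.U
    (U_top hℓ2 hB (hOf ⊤ hT)) (fun W hW hP => hB.un W (hOf W (hof W hW hP))) (by
      intro W hW hP σ hσ
      obtain ⟨t, ht, hts⟩ := hB.sur σ hσ
      exact ((cjd ℓ M hM hℓ2 V₀ G E₀ hD.toFq B hB.toSb σ hσ t ht hts W).2.2.2.2.2 hB
        (hOf W (hof W hW hP))).2.2)
  refine ⟨G', iG, iFG, B', j, h1, h3 r hr, h2 A₁ (Or.inl rfl), h2 A₂ (Or.inr rfl), ?_, h4⟩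
  intro W hW
  have hnP : ¬ (W = A₁ ∨ W = A₂) := by
    rintro (h | h)
    · exact hW.2.1 h
    · exact hW.2.2 h
  obtain ⟨e1, -, e2⟩ := h8 W hW.1
  obtain ⟨q, hq1, hq2⟩ := e2 hnP
  have hst : ∀ W, Of A₁ A₂ W → Nat.card (St E₀ W) = 1 := by
    intro W hW
    rw [Subgroup.card_eq_one, Subgroup.eq_bot_iff_forall]
    rintro σ ⟨h1, h2⟩
    exact (hOf W hW).2 σ h1 h2
  obtain ⟨e3, -, -⟩ := h8 ⊤ hT.1
  rw [hst ⊤ hT, h7, mul_one, mul_one] at e3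
  rw [hst W hW, mul_one] at e1
  have hl0 : (ℓ : ℚ) ≠ 0 := Nat.cast_ne_zero.2 hℓ.ne_zero
  have e4 : B'.U W = κ W := by
    unfold Bk.U
    rw [h5, h5, h6, e1, e3]
    push_cast
    field_simp
  refine ⟨-q, (SOR.Rl ℓ).neg_mem hq1, ?_⟩
  rw [e4]
  linarith

end Pool.Agent.PP.SD.H43X
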